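import Pool.Agent.H499R2.HL.A

/-! The law of the heights: the number of odd terms. -/

set_option autoImplicit false

namespace Pool.Agent.H499R2.HL

open Finset Filter Topology

open Pool.Agent.H499R2.ND (Dn cnt Tn Td IsHt Bas dn_squeeze large_log Phi Phi_continuous phi_cdf cnt_eq)
open Pool.Agent.H499R2.LT

noncomputable def nu : ℝ := Real.log (4 / 3)

theorem nu_pos : 0 < nu := Real.log_pos (by norm_num)

theorem nu_eq : nu = 2 * Real.log 2 - Real.log 3 := by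
  unfold nu
  rw [Real.log_div (by norm_num) (by norm_num), show (4 : ℝ) = 2 ^ 2 by norm_num, Real.log_pow]
  push_cast; ring

noncomputable def rr : ℝ := Real.sqrt (2 / nu ^ 3)

theorem rr_pos : 0 < rr := Real.sqrt_pos.2 (by have := nu_pos; positivity)

theorem sqrt_rr (L : ℝ) : Real.sqrt (2 * L / Real.log (4 / 3) ^ 3) = rr * Real.sqrt L := by
  unfold rr
  rw [← Real.sqrt_mul (by have := nu_pos; positivity)]
  congr 1
  unfold nu
  ring

/-- bound for the time -/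
noncomputable def bk (x L : ℝ) : ℝ :=
  2 / Real.log (4 / 3) * L + x * (Real.log 3 * Real.sqrt (2 * L / Real.log (4 / 3) ^ 3))

/-- bound for the number of odd terms -/
noncomputable def bo (x L : ℝ) : ℝ :=
  1 / Real.log (4 / 3) * L + x * (Real.log 2 * Real.sqrt (2 * L / Real.log (4 / 3) ^ 3))

theorem bk_eq (x L : ℝ) : Real.log 2 * bk x L = (2 * Real.log 2 / nu) * L
    + x * (Real.log 2 * Real.log 3 * rr * Real.sqrt L) := by
  unfold bk
  rw [sqrt_rr]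
  unfold nu
  ring

theorem bo_eq (x L : ℝ) : Real.log 3 * bo x L = (2 * Real.log 2 / nu) * L - L
    + x * (Real.log 2 * Real.log 3 * rr * Real.sqrt L) := by
  unfold bo
  rw [sqrt_rr]
  have h1 : 2 * Real.log 2 / nu - 1 = Real.log 3 / nu := by
    have := nu_pos
    field_simp
    linarith [nu_eq]
  have h2 : (2 * Real.log 2 / nu) * L - L = (Real.log 3 / nu) * L := by rw [← h1]; ring
  rw [h2]
  unfold nu
  ring

/-- residual of a hit of 1 -/
theorem res_one : ∃ C : ℝ, 0 < C ∧ ∀ n k : ℕ, 1 ≤ n → H k n →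
    |Real.log n + (odn k n : ℝ) * Real.log 3 - k * Real.log 2| ≤ C := by
  obtain ⟨C, hC, h⟩ := bres (d := 1) (by decide) isCoprime_one_left {1} 1
  refine ⟨C, hC, fun n k hn hk => ?_⟩
  have h1 := h (n : ℤ) k (by omega) ?_
  · rw [od_nat] at h1
    push_cast at h1
    exact h1
  · refine ⟨?_, by simp, ?_⟩
    · rw [Td_nat, hk.1]; rfl
    · intro i hi
      rw [Td_nat, Finset.mem_singleton]
      intro h2
      exact hk.2 i hi (by exact_mod_cast h2)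

/-- the joint law, without the residue class of the time -/
theorem law_k : ∃ δ : ℝ, 0 < δ ∧ δ ≤ 1 ∧ (δ = 1 ↔ ∀ n : ℕ, 1 ≤ n → ∃ k : ℕ, Tn^[k] n = 1) ∧
    Dn (fun n => ∃ k : ℕ, Tn^[k] n = 1) δ ∧
    ∀ (m : ℕ) (b : ℤ), 1 ≤ m →
      Dn (fun n => ∃ k : ℕ, H k n ∧ (odn k n : ℤ) ≡ b [ZMOD m]) (δ / m) ∧
      ∀ x : ℝ, Dn (fun n => ∃ k : ℕ, (k : ℝ) ≤ bk x (Real.log n) ∧ H k n ∧ (odn k n : ℤ) ≡ b [ZMOD m])
        (δ / m * Phi x) := by
  obtain ⟨δ, h0, h1, h2, h3, h4⟩ := law_one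
  refine ⟨δ, h0, h1, h2, h3, fun m b hm => ?_⟩
  have hm0 : (m : ℝ) ≠ 0 := by exact_mod_cast (by omega : m ≠ 0)
  have hcls : ∀ k : ℕ, ∃ a ∈ Finset.range m, (k : ℤ) ≡ (a : ℤ) [ZMOD m] := by
    intro k
    refine ⟨k % m, Finset.mem_range.2 (Nat.mod_lt _ hm), ?_⟩
    rw [Int.ModEq]
    push_cast
    simp
  have huni : ∀ a ∈ Finset.range m, ∀ a' ∈ Finset.range m, ∀ k : ℕ, (k : ℤ) ≡ (a : ℤ) [ZMOD m] →
      (k : ℤ) ≡ (a' : ℤ) [ZMOD m] → a = a' := by
    intro a ha a' ha' k h5 h6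
    rw [Finset.mem_range] at ha ha'
    have h7 : (a : ℤ) ≡ (a' : ℤ) [ZMOD m] := h5.symm.trans h6
    have h8 : a ≡ a' [MOD m] := (Int.natCast_modEq_iff).1 h7
    exact Nat.ModEq.eq_of_lt_of_lt h8 ha ha'
  constructor
  · have h5 := Dn_sum (Finset.range m) _ (fun _ => δ / (m : ℝ) ^ 2) (fun a _ => (h4 m a b hm).1) (by
      rintro n a ha a' ha' ⟨k, hk, hk1, _⟩ ⟨k', hk', hk1', _⟩
      obtain rfl := H_unique hk hk'
      exact huni a ha a' ha' k hk1 hk1')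
    rw [Finset.sum_const, Finset.card_range, nsmul_eq_mul] at h5
    have e : (m : ℝ) * (δ / (m : ℝ) ^ 2) = δ / m := by field_simp
    rw [e] at h5
    refine Dn_iff (fun n _ => ?_) h5
    constructor
    · rintro ⟨a, _, k, hk, _, hk2⟩
      exact ⟨k, hk, hk2⟩
    · rintro ⟨k, hk, hk2⟩
      obtain ⟨a, ha, ha'⟩ := hcls k
      exact ⟨a, ha, k, hk, ha', hk2⟩
  · intro x
    have h5 := Dn_sum (Finset.range m) _ (fun _ => δ * ProbabilityTheory.cdf (ProbabilityTheory.gaussianReal 0 1) x / (m : ℝ) ^ 2)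
      (fun a _ => (h4 m a b hm).2 x) (by
      rintro n a ha a' ha' ⟨k, _, hk, hk1, _⟩ ⟨k', _, hk', hk1', _⟩
      obtain rfl := H_unique hk hk'
      exact huni a ha a' ha' k hk1 hk1')
    rw [Finset.sum_const, Finset.card_range, nsmul_eq_mul] at h5
    have e : (m : ℝ) * (δ * ProbabilityTheory.cdf (ProbabilityTheory.gaussianReal 0 1) x / (m : ℝ) ^ 2)
        = δ / m * Phi x := by rw [phi_cdf]; field_simp
    rw [e] at h5
    refine Dn_iff (fun n _ => ?_) h5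
    constructor
    · rintro ⟨a, _, k, hk0, hk, _, hk2⟩
      exact ⟨k, hk0, hk, hk2⟩
    · rintro ⟨k, hk0, hk, hk2⟩
      obtain ⟨a, ha, ha'⟩ := hcls k
      exact ⟨a, ha, k, hk0, hk, ha', hk2⟩

theorem large_sqrt (c : ℝ) {a : ℝ} (ha : 0 < a) : ∃ L0 : ℝ, ∀ L : ℝ, L0 ≤ L → (c ≤ a * Real.sqrt L ∧ 0 ≤ L) := by
  refine ⟨max 0 ((c / a) ^ 2), fun L hL => ⟨?_, (le_max_left _ _).trans hL⟩⟩
  have h4 : c / a ≤ Real.sqrt L := Real.le_sqrt_of_sq_le ((le_max_right _ _).trans hL)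
  rw [div_le_iff₀ ha] at h4
  linarith

/-- law of the number of odd terms -/
theorem law_o {δ : ℝ} {m : ℕ} {b : ℤ}
    (h : ∀ x : ℝ, Dn (fun n => ∃ k : ℕ, (k : ℝ) ≤ bk x (Real.log n) ∧ H k n ∧ (odn k n : ℤ) ≡ b [ZMOD m])
        (δ / m * Phi x)) (x : ℝ) :
    Dn (fun n => ∃ k : ℕ, (odn k n : ℝ) ≤ bo x (Real.log n) ∧ H k n ∧ (odn k n : ℤ) ≡ b [ZMOD m])
        (δ / m * Phi x) := by
  obtain ⟨C, hC, hres⟩ := res_one
  have hl3 : 0 < Real.log 3 := Real.log_pos (by norm_num)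
  have hl2 : 0 < Real.log 2 := Real.log_pos (by norm_num)
  have hrr := rr_pos
  refine dn_squeeze (P := fun x n => ∃ k : ℕ, (k : ℝ) ≤ bk x (Real.log n) ∧ H k n ∧ (odn k n : ℤ) ≡ b [ZMOD m])
    (F := fun x => δ / m * Phi x) (Phi_continuous.const_mul _) h ?_
  intro θ hθ η hη
  obtain ⟨E, hE, hE'⟩ := large_log (large_sqrt C
    (show 0 < θ * (Real.log 2 * Real.log 3 * rr) by positivity)) hη
  refine ⟨E, hE, fun n hn hnE => ?_⟩
  have h1 := (hE' n hn hnE).1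
  constructor
  · rintro ⟨k, hk, hH, hk2⟩
    refine ⟨k, ?_, hH, hk2⟩
    have h2 := (abs_le.1 (hres n k hn hH)).2
    have h3 := mul_le_mul_of_nonneg_left hk hl2.le
    rw [bk_eq] at h3
    have h4 := bo_eq x (Real.log n)
    have h5 : Real.log 3 * (odn k n : ℝ) ≤ Real.log 3 * bo x (Real.log n) := by
      rw [h4]; nlinarith
    exact le_of_mul_le_mul_left h5 hl3
  · rintro ⟨k, hk, hH, hk2⟩
    refine ⟨k, ?_, hH, hk2⟩
    have h2 := (abs_le.1 (hres n k hn hH)).1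
    have h3 := mul_le_mul_of_nonneg_left hk hl3.le
    rw [bo_eq] at h3
    have h4 := bk_eq (x + θ) (Real.log n)
    have h5 : Real.log 2 * (k : ℝ) ≤ Real.log 2 * bk (x + θ) (Real.log n) := by
      rw [h4]; nlinarith
    exact le_of_mul_le_mul_left h5 hl2

theorem sqrt_add {L l : ℝ} (hL : 0 ≤ L) (hl : 0 ≤ l) : Real.sqrt (L + l) ≤ Real.sqrt L + Real.sqrt l := by
  rw [Real.sqrt_le_left (by positivity)]
  have h1 := Real.sq_sqrt hL
  have h2 := Real.sq_sqrt hl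
  have h3 := mul_nonneg (Real.sqrt_nonneg L) (Real.sqrt_nonneg l)
  nlinarith

theorem bo_shift (x : ℝ) {L : ℝ} (hL : 0 ≤ L) :
    |bo x (L + Real.log 2) - bo x L| ≤ Real.log 2 / nu + |x| * (Real.log 2 * rr) := by
  have hl2 : 0 < Real.log 2 := Real.log_pos (by norm_num)
  have hl21 : Real.log 2 ≤ 1 := by linarith [Real.log_two_lt_d9]
  have hrr := rr_pos
  have hnu := nu_pos
  unfold bo
  rw [sqrt_rr, sqrt_rr]
  have e : 1 / Real.log (4 / 3) * (L + Real.log 2) + x * (Real.log 2 * (rr * Real.sqrt (L + Real.log 2)))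
      - (1 / Real.log (4 / 3) * L + x * (Real.log 2 * (rr * Real.sqrt L)))
      = Real.log 2 / nu + x * ((Real.log 2 * rr) * (Real.sqrt (L + Real.log 2) - Real.sqrt L)) := by
    unfold nu; ring
  rw [e]
  have h1 : 0 ≤ Real.sqrt (L + Real.log 2) - Real.sqrt L := by
    linarith [Real.sqrt_le_sqrt (show L ≤ L + Real.log 2 by linarith)]
  have h2 : Real.sqrt (L + Real.log 2) - Real.sqrt L ≤ 1 := by
    have h3 := sqrt_add hL hl2.le
    have h4 : Real.sqrt (Real.log 2) ≤ 1 := Real.sqrt_le_one.2 hl21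
    linarith
  refine (abs_add_le _ _).trans ?_
  rw [abs_of_pos (by positivity : (0 : ℝ) < Real.log 2 / nu), abs_mul,
    abs_of_nonneg (mul_nonneg (by positivity : (0 : ℝ) ≤ Real.log 2 * rr) h1)]
  have h5 : Real.log 2 * rr * (Real.sqrt (L + Real.log 2) - Real.sqrt L) ≤ Real.log 2 * rr := by
    have : 0 < Real.log 2 * rr := by positivity
    nlinarith
  have h6 := mul_le_mul_of_nonneg_left h5 (abs_nonneg x)
  linarith

theorem bo_theta (x θ L : ℝ) : bo (x + θ) L = bo x L + θ * (Real.log 2 * rr) * Real.sqrt L := by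
  unfold bo
  rw [sqrt_rr]
  ring

/-- the same law at `2 n` -/
theorem law_two {δ : ℝ} {m : ℕ} {b : ℤ}
    (h : ∀ x : ℝ, Dn (fun n => ∃ k : ℕ, (odn k n : ℝ) ≤ bo x (Real.log n) ∧ H k n ∧
      (odn k n : ℤ) ≡ b [ZMOD m]) (δ / m * Phi x)) (x : ℝ) :
    Dn (fun n => ∃ k : ℕ, (odn k (2 * n) : ℝ) ≤ bo x (Real.log ((2 * n : ℕ) : ℝ)) ∧ H k (2 * n) ∧
      (odn k (2 * n) : ℤ) ≡ b [ZMOD m]) (δ / m * Phi x) := by
  have hl2 : 0 < Real.log 2 := Real.log_pos (by norm_num)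
  have hrr := rr_pos
  refine dn_squeeze (P := fun x n => ∃ k : ℕ, (odn k n : ℝ) ≤ bo x (Real.log n) ∧ H k n ∧
      (odn k n : ℤ) ≡ b [ZMOD m])
    (F := fun x => δ / m * Phi x) (Phi_continuous.const_mul _) h ?_
  intro θ hθ η hη
  obtain ⟨E, hE, hE'⟩ := large_log (large_sqrt (Real.log 2 / nu + |x| * (Real.log 2 * rr))
    (show 0 < θ * (Real.log 2 * rr) by positivity)) hη
  refine ⟨E, hE, fun n hn hnE => ?_⟩
  obtain ⟨h1, h1'⟩ := hE' n hn hnE
  have e : Real.log ((2 * n : ℕ) : ℝ) = Real.log n + Real.log 2 := by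
    push_cast
    rw [Real.log_mul (by norm_num) (by exact_mod_cast (by omega : n ≠ 0)), add_comm]
  rw [e]
  have h2 := abs_le.1 (bo_shift x h1')
  constructor
  · rintro ⟨k, hk, hH, hk2⟩
    refine ⟨k + 1, ?_, H_two hH, by rw [odn_two]; exact hk2⟩
    rw [odn_two]
    have h3 := bo_theta (x - θ) θ (Real.log n)
    rw [sub_add_cancel] at h3
    linarith [h2.1]
  · rintro ⟨k, hk, hH, hk2⟩
    obtain ⟨k', rfl, hH'⟩ := H_of_two hH
    rw [odn_two] at hk hk2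
    refine ⟨k', ?_, hH', hk2⟩
    have h3 := bo_theta x θ (Real.log n)
    linarith [h2.2]

theorem oc_odn (k : ℕ) : ∀ n : ℕ, Pool.Agent.H363R2.oc k n = odn k n := by
  have h : ∀ n : ℕ, ((Pool.Agent.H363R2.oc k n : ℕ) : ℤ) = od 1 k (n : ℤ) := by
    induction k with
    | zero => intro n; rfl
    | succ k ih =>
      intro n
      rw [Pool.Agent.H363R2.oc, od, Pool.Agent.H499R2.ND.TN_eq_Tn]
      have e1 := Td_nat 1 n
      rw [Function.iterate_one, Function.iterate_one] at e1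
      rw [e1, Nat.cast_add, ih]
      congr 1
      rw [Int.natCast_emod]
      push_cast
      rcases Nat.mod_two_eq_zero_or_one n with h | h
      · have h' : (n : ℤ) % 2 = 0 := by omega
        rw [if_pos h', h']
      · have h' : (n : ℤ) % 2 = 1 := by omega
        rw [if_neg (by omega), h']
  intro n
  have h1 := h n
  rw [od_nat] at h1
  exact_mod_cast h1

/-- THE LAW OF THE HEIGHTS -/
theorem law_ht : ∃ δ : ℝ, 0 < δ ∧ δ ≤ 1 ∧ (δ = 1 ↔ ∀ m : ℕ, Odd m → ∃ h, IsHt m h) ∧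
    Dn (fun n => n % 2 = 1 ∧ ∃ h : ℕ, IsHt n h) (δ / 2) ∧
    ∀ (q : ℕ) (b : ℤ), 1 ≤ q →
      Dn (fun n => n % 2 = 1 ∧ ∃ h : ℕ, IsHt n h ∧ (h : ℤ) ≡ b [ZMOD q]) (δ / q / 2) ∧
      ∀ x : ℝ, Dn (fun n => n % 2 = 1 ∧ ∃ h : ℕ, IsHt n h ∧ (h : ℝ) ≤ bo x (Real.log n) ∧
        (h : ℤ) ≡ b [ZMOD q]) (δ / q * Phi x / 2) := by
  obtain ⟨δ, h0, h1, h2, h3, h4⟩ := law_k
  have key : ∀ (R : ℕ → ℕ → Prop) (l : ℝ), Dn (fun n => n % 2 = 1 ∧ ∃ k : ℕ, H k n ∧ R n (odn k n)) l →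
      Dn (fun n => n % 2 = 1 ∧ ∃ h : ℕ, IsHt n h ∧ R n h) l := by
    intro R l hR
    refine Pool.Agent.H499R2.ND.dn_congr hR (Pool.Agent.H499R2.ND.zd_bdd 1) fun n hn hE => ?_
    have hn1 : n ≠ 1 := by
      rintro rfl
      exact hE (by norm_num)
    refine and_congr_right fun hodd => ?_
    have hht : ∀ k, H k n → IsHt n (odn k n) := by
      intro k hk
      have h5 := Pool.Agent.H363R2.Cm_height k n (Nat.odd_iff.2 hodd) hn1
        (by rw [Pool.Agent.H499R2.ND.TN_eq_Tn]; exact hk.1)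
        (by rw [Pool.Agent.H499R2.ND.TN_eq_Tn]; exact hk.2)
      rw [oc_odn] at h5
      exact h5
    constructor
    · rintro ⟨k, hk, hR'⟩
      exact ⟨_, hht k hk, hR'⟩
    · rintro ⟨h, hh, hR'⟩
      have hb : Bas n := (Pool.Agent.H499R2.ND.ht_iff (Nat.odd_iff.2 hodd)).2 ⟨h, hh⟩
      classical
      have hb' : ∃ k, Tn^[k] n = 1 := hb
      have hk : H (Nat.find hb') n := ⟨Nat.find_spec hb', fun i hi => Nat.find_min hb' hi⟩
      have h6 := Pool.Agent.H499R2.ND.ht_unique hh (hht _ hk)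
      rw [h6] at hR'
      exact ⟨_, hk, hR'⟩
  have hB : Dn (fun n => ∃ k : ℕ, H k n) δ := by
    refine Dn_iff (fun n _ => ?_) h3
    constructor
    · intro h
      classical
      exact ⟨Nat.find h, Nat.find_spec h, fun i hi => Nat.find_min h hi⟩
    · rintro ⟨k, hk⟩; exact ⟨k, hk.1⟩
  refine ⟨δ, h0, h1, ?_, ?_, fun q b hq => ⟨?_, fun x => ?_⟩⟩
  · rw [h2]
    exact Pool.Agent.H499R2.ND.bas_all_iff
  · have h5 := dn_odd hB (Dn_iff (fun n _ => ⟨fun ⟨k, hk⟩ => ⟨k + 1, H_two hk⟩, fun ⟨k, hk⟩ => by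
      obtain ⟨k', _, h'⟩ := H_of_two hk
      exact ⟨k', h'⟩⟩) hB)
    have h6 := key (fun _ _ => True) _ (Dn_iff (fun n _ => by simp) h5)
    exact Dn_iff (fun n _ => by simp) h6
  · have h5 := (h4 q b hq).1
    have h6 := dn_odd h5 (Dn_iff (fun n _ => ⟨?_, ?_⟩) h5)
    · exact key (fun _ h => (h : ℤ) ≡ b [ZMOD q]) _ h6
    · rintro ⟨k, hk, hk2⟩
      exact ⟨k + 1, H_two hk, by rw [odn_two]; exact hk2⟩
    · rintro ⟨k, hk, hk2⟩
      obtain ⟨k', rfl, h'⟩ := H_of_two hk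
      rw [odn_two] at hk2
      exact ⟨k', h', hk2⟩
  · have h5 := law_o (h4 q b hq).2
    have h6 := dn_odd (h5 x) (law_two h5 x)
    have h7 := key (fun n h => (h : ℝ) ≤ bo x (Real.log n) ∧ (h : ℤ) ≡ b [ZMOD q]) _
      (Dn_iff (fun n _ => and_congr_right fun _ => exists_congr fun k => by tauto) h6)
    exact h7

end Pool.Agent.H499R2.HL
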