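import Pool.Agent.H499R2.HL.C
import Pool.Agent.H499R2.NDWord

/-! The joint law of the maximum excursion and the total stopping time. -/

set_option autoImplicit false

namespace Pool.Agent.H499R2.HL

open Finset Filter Topology

open Pool.Agent.H499R2.ND (Dn cnt Tn Td IsHt Bas Bdd AK rK AK_mod AK_of_bound cnt_mono cnt_or prog_density zd_iff
  Phi Phi_continuous phi_cdf large_log)
open Pool.Agent.H499R2.LT
open Pool.Agent.H499R2.CO (HD HD_congr HD_not Slow run_Tn Slow_one)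

theorem dn_AK' {P : ℕ → Prop} {δ : ℝ} (hP : Dn P δ) (hE : Dn (fun n => ¬ (P n ↔ P (n + 1))) 0) (K : ℕ) (lam : ℝ) :
    Dn (fun n => AK K lam n ∧ P n) (rK K lam * δ) := by
  classical
  have h1 := Dn_sum ((range (2 ^ K)).filter (AK K lam)) (fun r n => n % 2 ^ K = r % 2 ^ K ∧ P n)
    (fun _ => δ / ((2 ^ K : ℕ) : ℝ)) (fun r _ => prog_density hP hE (by positivity) r) (by
      rintro n i hi j hj ⟨h1, _⟩ ⟨h2, _⟩
      rw [mem_filter, mem_range] at hi hj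
      rw [h1, Nat.mod_eq_of_lt hi.1, Nat.mod_eq_of_lt hj.1] at h2
      exact h2)
  rw [sum_const, nsmul_eq_mul] at h1
  have e : (((range (2 ^ K)).filter (AK K lam)).card : ℝ) * (δ / ((2 ^ K : ℕ) : ℝ)) = rK K lam * δ := by
    unfold rK
    push_cast
    ring
  rw [e] at h1
  refine Dn_iff (fun n _ => ?_) h1
  constructor
  · rintro ⟨r, hr, h2, h3⟩
    rw [mem_filter, mem_range] at hr
    refine ⟨?_, h3⟩
    rw [Nat.mod_eq_of_lt hr.1] at h2
    rw [← AK_mod, h2]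
    exact hr.2
  · rintro ⟨h2, h3⟩
    refine ⟨n % 2 ^ K, ?_, (Nat.mod_mod _ _).symm, h3⟩
    rw [mem_filter, mem_range, AK_mod]
    exact ⟨Nat.mod_lt _ (by positivity), h2⟩

/-- the maximum excursion is independent of properties which almost always agree at `n` and `n+1` -/
theorem joint_exc {β δ : ℝ} (hβ : Dn Bdd β) {P : ℕ → Prop} (hPB : ∀ n, P n → Bdd n) (hP : Dn P δ)
    (hE : Dn (fun n => ¬ (P n ↔ P (n + 1))) 0) {lam : ℝ} (hl : 1 ≤ lam) {q : ℝ}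
    (hq : Tendsto (fun K => rK K lam) atTop (𝓝 q))
    (hX : Dn (fun n => ∀ k, ((Tn^[k] n : ℕ) : ℝ) ≤ lam * n) (β * q)) :
    Dn (fun n => P n ∧ ∀ k, ((Tn^[k] n : ℕ) : ℝ) ≤ lam * n) (δ * q) := by
  unfold Dn
  rw [Metric.tendsto_atTop]
  intro ε hε
  have h1 : Tendsto (fun K => |rK K lam * β - β * q| + |rK K lam * δ - δ * q|) atTop (𝓝 0) := by
    have h2 := (hq.mul_const β).sub_const (β * q)
    have h3 := (hq.mul_const δ).sub_const (δ * q)
    rw [mul_comm q β, sub_self] at h2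
    rw [mul_comm q δ, sub_self] at h3
    simpa using h2.abs.add h3.abs
  obtain ⟨K, hK⟩ := (h1.eventually (gt_mem_nhds (show (0 : ℝ) < ε / 2 by positivity))).exists
  have a1 := Metric.tendsto_atTop.1 (dn_AK' hP hE K lam) (ε / 8) (by positivity)
  have a2 := Metric.tendsto_atTop.1 (Pool.Agent.H499R2.ND.dn_AK Pool.Agent.H499R2.ND.Bdd_inv hβ K lam) (ε / 8) (by positivity)
  have a3 := Metric.tendsto_atTop.1 hX (ε / 8) (by positivity)
  obtain ⟨N1, hN1⟩ := a1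
  obtain ⟨N2, hN2⟩ := a2
  obtain ⟨N3, hN3⟩ := a3
  refine ⟨max (max N1 N2) (max N3 1), fun N hN => ?_⟩
  have g1 := hN1 N ((le_max_left _ _).trans ((le_max_left _ _).trans hN))
  have g2 := hN2 N ((le_max_right _ _).trans ((le_max_left _ _).trans hN))
  have g3 := hN3 N ((le_max_left _ _).trans ((le_max_right _ _).trans hN))
  have g4 : 1 ≤ N := (le_max_right _ _).trans ((le_max_right _ _).trans hN)
  have hNR : (0 : ℝ) < N := by exact_mod_cast g4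
  have i1 : cnt (fun n => P n ∧ ∀ k, ((Tn^[k] n : ℕ) : ℝ) ≤ lam * n) N ≤ cnt (fun n => AK K lam n ∧ P n) N :=
    cnt_mono N fun n hn _ h => ⟨AK_of_bound hl hn h.2 K, h.1⟩
  have i2 : cnt (fun n => AK K lam n ∧ P n) N ≤ cnt (fun n => P n ∧ ∀ k, ((Tn^[k] n : ℕ) : ℝ) ≤ lam * n) N
      + cnt (fun n => (AK K lam n ∧ Bdd n) ∧ ¬ ∀ k, ((Tn^[k] n : ℕ) : ℝ) ≤ lam * n) N := by
    refine cnt_or N fun n _ _ h => ?_
    by_cases h5 : ∀ k, ((Tn^[k] n : ℕ) : ℝ) ≤ lam * n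
    · exact Or.inl ⟨h.2, h5⟩
    · exact Or.inr ⟨⟨h.1, hPB n h.2⟩, h5⟩
  have i3 : cnt (fun n => (AK K lam n ∧ Bdd n) ∧ ¬ ∀ k, ((Tn^[k] n : ℕ) : ℝ) ≤ lam * n) N
      + cnt (fun n => ∀ k, ((Tn^[k] n : ℕ) : ℝ) ≤ lam * n) N = cnt (fun n => AK K lam n ∧ Bdd n) N := by
    unfold cnt
    have hf : ∀ R : ℕ → Prop, {n : ℕ | 1 ≤ n ∧ n ≤ N ∧ R n}.Finite := fun R =>
      (Set.finite_Icc 1 N).subset fun n hn => ⟨hn.1, hn.2.1⟩
    have e : {n : ℕ | 1 ≤ n ∧ n ≤ N ∧ (AK K lam n ∧ Bdd n)}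
        = {n : ℕ | 1 ≤ n ∧ n ≤ N ∧ ((AK K lam n ∧ Bdd n) ∧ ¬ ∀ k, ((Tn^[k] n : ℕ) : ℝ) ≤ lam * n)}
          ∪ {n : ℕ | 1 ≤ n ∧ n ≤ N ∧ ∀ k, ((Tn^[k] n : ℕ) : ℝ) ≤ lam * n} := by
      ext n
      constructor
      · rintro ⟨h1, h2, h3⟩
        by_cases h5 : ∀ k, ((Tn^[k] n : ℕ) : ℝ) ≤ lam * n
        · exact Or.inr ⟨h1, h2, h5⟩
        · exact Or.inl ⟨h1, h2, h3, h5⟩
      · rintro (⟨h1, h2, h3, _⟩ | ⟨h1, h2, h3⟩)
        · exact ⟨h1, h2, h3⟩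
        · exact ⟨h1, h2, AK_of_bound hl h1 h3 K, ⌊lam * n⌋₊, fun k => Nat.le_floor (h3 k)⟩
    rw [e, Set.ncard_union_eq _ (hf _) (hf _)]
    · push_cast; ring
    · rw [Set.disjoint_left]
      rintro n ⟨_, _, _, h3⟩ ⟨_, _, h4⟩
      exact h3 h4
  rw [Real.dist_eq] at g1 g2 g3 ⊢
  set A := cnt (fun n => AK K lam n ∧ P n) N with hA
  set B := cnt (fun n => AK K lam n ∧ Bdd n) N with hB
  set X := cnt (fun n => ∀ k, ((Tn^[k] n : ℕ) : ℝ) ≤ lam * n) N with hXd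
  set Y := cnt (fun n => P n ∧ ∀ k, ((Tn^[k] n : ℕ) : ℝ) ≤ lam * n) N with hY
  have j1 : A / N - Y / N ≤ B / N - X / N := by
    rw [← sub_div, ← sub_div]
    exact div_le_div_of_nonneg_right (by linarith) hNR.le
  have j2 : 0 ≤ A / N - Y / N := by
    rw [← sub_div]
    exact div_nonneg (by linarith) hNR.le
  rw [abs_lt] at g1 g2 g3 ⊢
  have k1 := abs_le.1 (show |rK K lam * β - β * q| ≤ |rK K lam * β - β * q| from le_rfl)
  have k2 := abs_le.1 (show |rK K lam * δ - δ * q| ≤ |rK K lam * δ - δ * q| from le_rfl)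
  have k3 := abs_nonneg (rK K lam * β - β * q)
  have k4 := abs_nonneg (rK K lam * δ - δ * q)
  constructor <;> linarith [g1.1, g1.2, g2.1, g2.2, g3.1, g3.2, k1.1, k1.2, k2.1, k2.2]

/-- a family of nested properties, continuous in density, changes rarely from `n` to `n+1` -/
theorem next_family {P : ℝ → ℕ → Prop} {F : ℝ → ℝ} (hF : Continuous F) (hP : ∀ x, Dn (P x) (F x))
    (hmono : ∀ x y n, x ≤ y → P x n → P y n) (x : ℝ)
    (h : ∀ θ : ℝ, 0 < θ → ∀ η : ℝ, 0 < η → ∃ E : ℕ → Prop,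
      (∀ᶠ N : ℕ in atTop, cnt E N ≤ η * N) ∧ ∀ n : ℕ, 1 ≤ n → ¬ E n →
        (P (x - θ) n → P x (n + 1)) ∧ (P x (n + 1) → P (x + θ) n)) :
    Dn (fun n => ¬ (P x n ↔ P x (n + 1))) 0 := by
  rw [zd_iff]
  intro ε hε
  obtain ⟨r, hr, hr'⟩ := Metric.continuousAt_iff.1 (hF.continuousAt (x := x)) (ε / 8) (by positivity : 0 < ε / 8)
  have h1 := hr' (x := x + r / 2) (by rw [Real.dist_eq, add_sub_cancel_left, abs_of_pos (by positivity)]; linarith)
  have h2 := hr' (x := x - r / 2) (by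
    rw [Real.dist_eq, sub_sub_cancel_left, abs_neg, abs_of_pos (by positivity)]; linarith)
  obtain ⟨E, hE, hE'⟩ := h (r / 2) (by positivity) (ε / 4) (by positivity)
  have a1 := Metric.tendsto_atTop.1 (hP (x + r / 2)) (ε / 8) (by positivity)
  have a2 := Metric.tendsto_atTop.1 (hP (x - r / 2)) (ε / 8) (by positivity)
  obtain ⟨N1, hN1⟩ := a1
  obtain ⟨N2, hN2⟩ := a2
  filter_upwards [hE, eventually_ge_atTop (max (max N1 N2) 1)] with N hNE hN
  have g1 := hN1 N ((le_max_left _ _).trans ((le_max_left _ _).trans hN))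
  have g2 := hN2 N ((le_max_right _ _).trans ((le_max_left _ _).trans hN))
  have g4 : 1 ≤ N := (le_max_right _ _).trans hN
  have hNR : (0 : ℝ) < N := by exact_mod_cast g4
  have i1 : cnt (fun n => ¬ (P x n ↔ P x (n + 1))) N
      ≤ cnt (fun n => P (x + r / 2) n ∧ ¬ P (x - r / 2) n) N + cnt E N := by
    refine cnt_or N fun n hn _ hne => ?_
    by_cases he : E n
    · exact Or.inr he
    · obtain ⟨b1, b2⟩ := hE' n hn he
      refine Or.inl ⟨?_, fun h5 => hne ⟨fun _ => b1 h5, fun _ => hmono _ _ n (by linarith) h5⟩⟩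
      by_cases h6 : P x n
      · exact hmono _ _ n (by linarith) h6
      · by_cases h7 : P x (n + 1)
        · exact b2 h7
        · exact absurd ⟨fun h => absurd h h6, fun h => absurd h h7⟩ hne
  have i2 : cnt (fun n => P (x + r / 2) n ∧ ¬ P (x - r / 2) n) N + cnt (P (x - r / 2)) N
      = cnt (P (x + r / 2)) N := by
    unfold cnt
    have hf : ∀ R : ℕ → Prop, {n : ℕ | 1 ≤ n ∧ n ≤ N ∧ R n}.Finite := fun R =>
      (Set.finite_Icc 1 N).subset fun n hn => ⟨hn.1, hn.2.1⟩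
    have e : {n : ℕ | 1 ≤ n ∧ n ≤ N ∧ P (x + r / 2) n}
        = {n : ℕ | 1 ≤ n ∧ n ≤ N ∧ (P (x + r / 2) n ∧ ¬ P (x - r / 2) n)}
          ∪ {n : ℕ | 1 ≤ n ∧ n ≤ N ∧ P (x - r / 2) n} := by
      ext n
      constructor
      · rintro ⟨h1, h2, h3⟩
        by_cases h5 : P (x - r / 2) n
        · exact Or.inr ⟨h1, h2, h5⟩
        · exact Or.inl ⟨h1, h2, h3, h5⟩
      · rintro (⟨h1, h2, h3, _⟩ | ⟨h1, h2, h3⟩)
        · exact ⟨h1, h2, h3⟩
        · exact ⟨h1, h2, hmono _ _ n (by linarith) h3⟩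
    rw [e, Set.ncard_union_eq _ (hf _) (hf _)]
    · push_cast; ring
    · rw [Set.disjoint_left]
      rintro n ⟨_, _, _, h3⟩ ⟨_, _, h4⟩
      exact h3 h4
  rw [Real.dist_eq, abs_lt] at g1 g2 h1 h2
  have j1 : cnt (P (x + r / 2)) N / N - cnt (P (x - r / 2)) N / N ≤ ε / 2 := by
    linarith [g1.1, g1.2, g2.1, g2.2, h1.1, h1.2, h2.1, h2.2]
  rw [← sub_div, div_le_iff₀ hNR] at j1
  nlinarith

end Pool.Agent.H499R2.HL
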